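import Pool.Agent.V11238.MG.JI

/-!
# Residually finite `p`-groups whose infinite-index subgroups are cyclic
-/

set_option autoImplicit false

open Subgroup Pool.Agent.V11238.MG

namespace Pool.Agent.Results.MP_464721_al.TwoGenerators

/-- `G` is an example for Q1 with the prime `p`: infinite, finitely generated, residually finite, a
`p`-group, all subgroups of infinite index (index `0`) cyclic. -/
def Example (p : ℕ) (G : Type) [Group G] : Prop :=
  Infinite G ∧ Group.FG G ∧
    (∀ g : G, g ≠ 1 → ∃ N : Subgroup G, N.Normal ∧ N.FiniteIndex ∧ g ∉ N) ∧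
    IsPGroup p G ∧ ∀ H : Subgroup G, H.index = 0 → IsCyclic H

/-- Every nontrivial normal subgroup of every subgroup of finite index has finite index. -/
def HJI (G : Type) [Group G] : Prop :=
  ∀ H : Subgroup G, H.FiniteIndex → ∀ L : Subgroup H, L.Normal → L ≠ ⊥ → L.FiniteIndex

theorem tors {p : ℕ} (hp : p.Prime) {G : Type} [Group G] (h : IsPGroup p G) (g : G) :
    IsOfFinOrder g := by
  obtain ⟨k, hk⟩ := h g
  exact isOfFinOrder_iff_pow_eq_one.2 ⟨p ^ k, pow_pos hp.pos k, hk⟩

theorem finite_cyclic {G : Type} [Group G] (ht : ∀ g : G, IsOfFinOrder g) (hc : IsCyclic G) :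
    Finite G := by
  obtain ⟨c, hc⟩ := IsCyclic.exists_generator (α := G)
  have h1 : (Set.univ : Set G).Finite :=
    (finite_zpowers.2 (ht c)).subset fun x _ => hc x
  exact Set.finite_univ_iff.1 h1

theorem dich {p : ℕ} (hp : p.Prime) {G : Type} [Group G] (h : Example p G) (H : Subgroup G) :
    Finite H ∨ H.FiniteIndex := by
  by_cases h0 : H.index = 0
  · left
    exact finite_cyclic (tors hp (h.2.2.2.1.to_subgroup H)) (h.2.2.2.2 H h0)
  · exact Or.inr ⟨h0⟩

/-- In a finite cyclic group an element of order dividing `p` lies in every subgroup of order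
`p`. -/
theorem cyclic_unique {p : ℕ} (hp : p.Prime) {C : Type} [Group C] [hfin : Finite C]
    (hc : IsCyclic C) {x y : C} (hx : x ^ p = 1) (hx1 : x ≠ 1) (hy : y ^ p = 1) :
    y ∈ zpowers x := by
  classical
  have := Fintype.ofFinite C
  have h1 := IsCyclic.card_pow_eq_one_le (α := C) hp.pos
  have hfp : Fact p.Prime := ⟨hp⟩
  have ho : orderOf x = p := orderOf_eq_prime hx hx1
  have h2 : ((zpowers x : Subgroup C) : Set C).toFinset ⊆
      Finset.univ.filter (fun a : C => a ^ p = 1) := by
    intro a ha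
    rw [Set.mem_toFinset] at ha
    obtain ⟨k, rfl⟩ := mem_zpowers_iff.1 ha
    rw [Finset.mem_filter]
    refine ⟨Finset.mem_univ _, ?_⟩
    rw [← zpow_natCast, ← zpow_mul, mul_comm, zpow_mul, zpow_natCast, hx, one_zpow]
  have h3 : ((zpowers x : Subgroup C) : Set C).toFinset.card = p := by
    rw [Set.toFinset_card, ← Nat.card_eq_fintype_card]
    exact (Nat.card_zpowers x).trans ho
  have h4 := Finset.eq_of_subset_of_card_le h2 (by rw [h3]; exact h1)
  have h5 : y ∈ ((zpowers x : Subgroup C) : Set C).toFinset := by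
    rw [h4, Finset.mem_filter]
    exact ⟨Finset.mem_univ _, hy⟩
  rwa [Set.mem_toFinset] at h5

theorem exists_order_p {p : ℕ} {G : Type} [Group G] [Nontrivial G] (h : IsPGroup p G) :
    ∃ x : G, x ≠ 1 ∧ x ^ p = 1 := by
  classical
  obtain ⟨g, hg⟩ := exists_ne (1 : G)
  have hex := h g
  have h1 := Nat.find_spec hex
  rcases hk : Nat.find hex with _ | k
  · rw [hk] at h1
    exact absurd (by simpa using h1) hg
  · refine ⟨g ^ p ^ k, ?_, ?_⟩
    · exact Nat.find_min hex (by omega)
    · rw [hk] at h1
      rw [← pow_mul, ← pow_succ]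
      exact h1

/-- The step from a group with trivial finite core to a subgroup generated by two elements. -/
theorem step {p : ℕ} (hp : p.Prime) {Q : Type} [Group Q] (hQ : Example p Q)
    (hcore : ∀ N : Subgroup Q, N.Normal → Finite N → N = ⊥) :
    ∃ (R : Type) (_ : Group R), Example p R ∧ HJI R ∧
      ∃ a b : R, orderOf a = p ∧ orderOf b = p ∧ closure {a, b} = ⊤ := by
  have hfp : Fact p.Prime := ⟨hp⟩
  have hF := dich hp hQ
  obtain ⟨hinf, hfg, hrf, hpg, hcyc⟩ := hQ
  have ht := tors hp hpg
  obtain ⟨x, hx1, hxp⟩ := exists_order_p hpg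
  have hnn : ¬ (zpowers x).Normal := fun hn => by
    have h1 := hcore _ hn (finite_zpowers.2 (ht x)).to_subtype
    rw [zpowers_eq_bot] at h1
    exact hx1 h1
  obtain ⟨n, hn⟩ : ∃ n, n * x * n⁻¹ ∉ zpowers x := by
    by_contra hcon
    push Not at hcon
    apply hnn
    refine ⟨fun y hy g => ?_⟩
    obtain ⟨k, rfl⟩ := mem_zpowers_iff.1 hy
    rw [← conj_zpow]
    exact Subgroup.zpow_mem _ (hcon g) k
  set y := n * x * n⁻¹ with hy
  have hyp : y ^ p = 1 := by rw [hy, conj_pow, hxp, mul_one, mul_inv_cancel]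
  have hy1 : y ≠ 1 := fun h => hn (by rw [h]; exact one_mem _)
  have hxH : x ∈ closure {x, y} := subset_closure (Or.inl rfl)
  have hyH : y ∈ closure {x, y} := subset_closure (Or.inr rfl)
  have hHi : (closure {x, y}).FiniteIndex := by
    refine ⟨fun h0 => ?_⟩
    have hc := hcyc _ h0
    have hfinH := finite_cyclic (tors hp (hpg.to_subgroup (closure {x, y}))) hc
    have h1 := cyclic_unique hp hc (x := ⟨x, hxH⟩) (y := ⟨y, hyH⟩) (Subtype.ext hxp)
      (fun h => hx1 (congrArg Subtype.val h)) (Subtype.ext hyp)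
    obtain ⟨k, hk⟩ := mem_zpowers_iff.1 h1
    exact hn (mem_zpowers_iff.2 ⟨k, congrArg Subtype.val hk⟩)
  have hnf : ∀ {K : Type} [Group K] [Infinite K] (M : Subgroup K), M.FiniteIndex → ¬ Finite M := by
    intro K _ hK M hM hfin
    have h4 : Nat.card M * M.index = Nat.card K := card_mul_index _
    have h5 : Nat.card K ≠ 0 := by
      rw [← h4]; exact mul_ne_zero Nat.card_pos.ne' hM.index_ne_zero
    exact hK.not_finite (Nat.finite_of_card_ne_zero h5)
  have hinfH : Infinite (closure {x, y}) := by
    rw [← not_finite_iff_infinite]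
    exact hnf _ hHi
  have hExH : Example p (closure {x, y}) := by
    refine ⟨hinfH, inferInstance, ?_, hpg.to_subgroup _, ?_⟩
    · rintro ⟨g, hg⟩ hg1
      obtain ⟨N, hN1, hN2, hN3⟩ := hrf g (fun h => hg1 (Subtype.ext h))
      exact ⟨N.subgroupOf _, inferInstance, inferInstance, fun h => hN3 h⟩
    · intro K h0
      have h1 : (K.map (closure {x, y}).subtype).index = 0 := by
        rw [index_map_subtype, h0, zero_mul]
      have h2 := hcyc _ h1
      exact isCyclic_of_injective
        ((K.equivMapOfInjective (closure {x, y}).subtype (subtype_injective _)).toMonoidHom)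
        (K.equivMapOfInjective (closure {x, y}).subtype (subtype_injective _)).injective
  have hcoreH : ∀ N : Subgroup (closure {x, y}), N.Normal → Finite N → N = ⊥ := by
    intro N hN hfin
    by_contra hne
    exact hnf N (hji ht hF hcore (closure {x, y}) N hN hne) hfin
  refine ⟨closure {x, y}, inferInstance, hExH, ?_, ⟨x, hxH⟩, ⟨y, hyH⟩, ?_, ?_, ?_⟩
  · intro K hK L hL hne
    have hfgH : Group.FG (closure {x, y}) := hExH.2.1
    exact hji (tors hp (hpg.to_subgroup _)) (dich hp hExH) hcoreH K L hL hne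
  · exact orderOf_eq_prime (Subtype.ext hxp) (fun h => hx1 (congrArg Subtype.val h))
  · exact orderOf_eq_prime (Subtype.ext hyp) (fun h => hy1 (congrArg Subtype.val h))
  · have h1 := closure_closure_coe_preimage (k := ({x, y} : Set Q))
    rw [← h1]
    congr 1
    ext ⟨z, hz⟩
    simp [Subtype.ext_iff]

/-- If an example exists for `p`, then there is a hereditarily just infinite example generated by
two elements of order `p`. -/
theorem result (p : ℕ) (hp : p.Prime) (G : Type) [Group G] (h : Example p G) :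
    ∃ (Q : Type) (_ : Group Q), Example p Q ∧ HJI Q ∧
      ∃ a b : Q, orderOf a = p ∧ orderOf b = p ∧ closure {a, b} = ⊤ := by
  have hFG := dich hp h
  obtain ⟨hinf, hfg, hrf, hpg, hcyc⟩ := h
  have hfin : Finite (fcore G) := fcore_finite hFG
  have hinfQ : Infinite (G ⧸ fcore G) := infinite_quot_finite (fcore G)
  have hpQ : IsPGroup p (G ⧸ fcore G) := hpg.to_quotient (fcore G)
  have hcQ : ∀ H : Subgroup (G ⧸ fcore G), H.index = 0 → IsCyclic H := by
    intro H h0
    rw [← index_comap_of_surjective _ (QuotientGroup.mk'_surjective (fcore G))] at h0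
    have h1 := hcyc _ h0
    let f : H.comap (QuotientGroup.mk' (fcore G)) →* H :=
      { toFun := fun x => ⟨QuotientGroup.mk' (fcore G) x, x.2⟩
        map_one' := rfl
        map_mul' := fun _ _ => rfl }
    refine isCyclic_of_surjective f ?_
    rintro ⟨x, hx⟩
    obtain ⟨y, rfl⟩ := QuotientGroup.mk'_surjective _ x
    exact ⟨⟨y, hx⟩, rfl⟩
  have hQ : Example p (G ⧸ fcore G) :=
    ⟨hinfQ, inferInstance, RF.quot hrf (fcore G), hpQ, hcQ⟩
  exact step hp hQ (quot_core_trivial hFG)

end Pool.Agent.Results.MP_464721_al.TwoGenerators
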